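import Pool.Agent.StarTr.Final

/-!
# MP_f3a9fd_gt: star bodies which are homothetic to, but not dilatates of, their iterated intersection body

For every `n ≥ 3` and every real `1 < i < n - 1` there are star bodies `L` in `ℝ^n`, which are neither
centered nor balls, such that `I_i² L` is homothetic to `L`, `I_i² L = x + r L` with `x ≠ 0`.  More
precisely, for every unit vector `e` and all sufficiently small `a > 0` there are such an `L` and an `r > 0`
with `I_i² L = r (a e + L)`, where the centered body `a e + L` has radial function `1` in the directions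
orthogonal to `e` (so the bodies for different `a` are not images of each other under dilatations and
isometries that fix the origin).

Idea: `M = a e + L` is a centered body of revolution with radial function `κ(⟨u, e⟩)`, and
`κ = C R((R c^i)^i)`, where `R` is the spherical Radon transform and `c` the radial function of `M - a e`.
The right side, normalised, maps the compact convex class of all `κ` with
`|κ(h) - κ(h')| ≤ a | |h|^p - |h'|^p |`, `κ(0) = 1`, to itself, for a suitable `p < 2` and all small `a`:
the second power of `R` reduces the modulus by the factor `(n-1)^(-p)`, `i² (n-1)^(-p) < 1`, and smoothes the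
irregularity at the equator that comes from the shift.  The Schauder fixed point theorem applies.
-/

open scoped RealInnerProductSpace

namespace Pool.Agent.Results.MP_f3a9fd_gt.GenuineHomotheties

open StarIB Metric

theorem result (n : ℕ) (i : ℝ) (hi : 1 < i) (hin : i < (n : ℝ) - 1)
    (e : EuclideanSpace ℝ (Fin n)) (he : ‖e‖ = 1) :
    ∃ a₀ : ℝ, 0 < a₀ ∧ ∀ a : ℝ, 0 < a → a < a₀ →
      ∃ (L : Set (EuclideanSpace ℝ (Fin n))) (r : ℝ), IsStarBody L ∧ 0 < r ∧
        interBody i (interBody i L) = (fun y => r • (a • e) + r • y) '' L ∧
        (0 : EuclideanSpace ℝ (Fin n)) ∈ interior L ∧ (∃ y ∈ L, -y ∉ L) ∧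
        (∀ (z : EuclideanSpace ℝ (Fin n)) (ρ : ℝ), L ≠ closedBall z ρ) ∧
        (∀ u : EuclideanSpace ℝ (Fin n), ‖u‖ = 1 → ⟪u, e⟫ = 0 →
          radial ((fun y => a • e + y) '' L) u = 1) := by
  have hn : 3 ≤ n := by
    by_contra hcon
    push Not at hcon
    have : (n : ℝ) ≤ 2 := by exact_mod_cast (by omega : n ≤ 2)
    linarith
  obtain ⟨m, rfl⟩ : ∃ m, n = m + 1 := ⟨n - 1, by omega⟩
  have him : i < m := by push_cast at hin; linarith
  have : NeZero m := ⟨by omega⟩
  exact StarTr.main (by omega) (by rw [finrank_euclideanSpace, Fintype.card_fin]) hi.le him e he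

end Pool.Agent.Results.MP_f3a9fd_gt.GenuineHomotheties
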